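import Pool.Agent.LRG.StmtsD

/-!
LRG, row BAS: short units of maximal rank.
-/

set_option autoImplicit false

open NumberField NumberField.Units NumberField.Units.dirichletUnitTheorem Module

namespace Pool.Agent.LRG.H41

theorem bas : D.BasStmt := by
  intro K _ _ H hspan
  classical
  obtain ⟨f, hf, -, hind⟩ := Submodule.exists_fun_fin_finrank_span_eq ℝ
    {x : logSpace K | x ∈ unitLattice K ∧ ∀ w, |x w| ≤ H}
  have hr : finrank ℝ (Submodule.span ℝ
      {x : logSpace K | x ∈ unitLattice K ∧ ∀ w, |x w| ≤ H}) = rank K := by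
    rw [hspan, finrank_top, Units.finrank_eq_rank]
  have hu : ∀ i : Fin (rank K), ∃ u : (𝓞 K)ˣ,
      logEmbedding K (Additive.ofMul u) = f (Fin.cast hr.symm i) := by
    intro i
    obtain ⟨a, -, ha⟩ := (hf (Fin.cast hr.symm i)).1
    exact ⟨Additive.toMul a, ha⟩
  choose u hu using hu
  refine ⟨u, ?_, ?_⟩
  · have e : (fun i => logEmbedding K (Additive.ofMul (u i))) = f ∘ Fin.cast hr.symm := funext hu
    unfold IsMaxRank
    rw [e]
    exact hind.comp _ (Fin.cast_injective _)
  · intro i w
    rw [hu]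
    exact (hf _).2 w

end Pool.Agent.LRG.H41
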