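import Pool.Agent.LRG.StmtsD

/-!
LRG, row GNU: a non torsion unit of a primitive field generates it.
-/

set_option autoImplicit false

open NumberField NumberField.Units Module

namespace Pool.Agent.LRG.H41

theorem gnu : D.GnuStmt := by
  intro n K _ u X hn hfin hprim hind hbdd
  set y : K := ((u 0 : 𝓞 K) : K) with hy
  have hyint : IsIntegral ℤ y := RingOfIntegers.isIntegral_coe _
  have hyint' : IsIntegral ℤ (((u 0)⁻¹ : (𝓞 K)ˣ) : 𝓞 K).val := RingOfIntegers.isIntegral_coe _
  have hmul : y * (((u 0)⁻¹ : (𝓞 K)ˣ) : 𝓞 K).val = 1 := by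
    have h1 : ((u 0 : 𝓞 K)) * (((u 0)⁻¹ : (𝓞 K)ˣ) : 𝓞 K) = 1 := Units.mul_inv _
    have h2 := congrArg (fun t : 𝓞 K => (t : K)) h1
    exact h2
  have htop : IntermediateField.adjoin ℚ {y} = ⊤ := by
    rcases hprim (IntermediateField.adjoin ℚ {y}) with h | h
    · exfalso
      rw [IntermediateField.adjoin_simple_eq_bot_iff, IntermediateField.mem_bot] at h
      obtain ⟨q, hq⟩ := h
      have hq1 : IsIntegral ℤ q := by
        rw [← hq] at hyint
        exact (isIntegral_algebraMap_iff (algebraMap ℚ K).injective).mp hyint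
      obtain ⟨a, ha⟩ := IsIntegrallyClosed.isIntegral_iff.mp hq1
      have hz : (((u 0)⁻¹ : (𝓞 K)ˣ) : 𝓞 K).val = algebraMap ℚ K q⁻¹ := by
        rw [map_inv₀, hq]
        exact eq_inv_of_mul_eq_one_right hmul
      have hq2 : IsIntegral ℤ q⁻¹ := by
        rw [hz] at hyint'
        exact (isIntegral_algebraMap_iff (algebraMap ℚ K).injective).mp hyint'
      obtain ⟨b, hb⟩ := IsIntegrallyClosed.isIntegral_iff.mp hq2
      have hq0 : q ≠ 0 := by
        rintro rfl
        rw [map_zero] at hq
        rw [← hq, zero_mul] at hmul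
        exact zero_ne_one hmul
      have hab : a * b = 1 := by
        have : (algebraMap ℤ ℚ a) * (algebraMap ℤ ℚ b) = 1 := by
          rw [ha, hb, mul_inv_cancel₀ hq0]
        rw [← map_mul, ← map_one (algebraMap ℤ ℚ)] at this
        exact (algebraMap ℤ ℚ).injective_int this
      have hy2 : y ^ 2 = 1 := by
        rw [← hq, ← ha]
        rcases Int.eq_one_or_neg_one_of_mul_eq_one hab with h | h <;> simp [h]
      have hu2 : (u 0) ^ 2 = 1 := by
        apply Units.ext
        apply RingOfIntegers.ext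
        push_cast
        simpa [hy] using hy2
      have hc := hind (fun _ => 2) (by
        rw [Fin.prod_univ_one]
        exact_mod_cast hu2)
      have := congrFun hc 0
      simp at this
    · exact h
  have hadj : IntermediateField.adjoin ℚ {((y : K) : ℂ)} = K := by
    have h1 := IntermediateField.lift_adjoin_simple (F := ℚ) (E := ℂ) K y
    have h3 : ∀ (A B : Algebra ℚ K), A = B →
        @IntermediateField.adjoin ℚ _ K _ A {y} = ⊤ → @IntermediateField.adjoin ℚ _ K _ B {y} = ⊤ := by
      intro A B h h'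
      subst h
      exact h'
    have h2 : IntermediateField.lift (IntermediateField.adjoin ℚ {y}) = K := by
      rw [h3 _ _ (Subsingleton.elim _ _) htop]
      exact IntermediateField.lift_top ℚ K
    exact h1.symm.trans h2
  have hmin : minpoly ℚ ((y : K) : ℂ) = minpoly ℚ y :=
    minpoly.algebraMap_eq (algebraMap K ℂ).injective y
  have hint : IsIntegral ℤ ((y : K) : ℂ) := hyint.algebraMap
  refine ⟨hadj, hint, ?_, ?_⟩
  · have hQ : IsIntegral ℚ ((y : K) : ℂ) := hint.tower_top
    rw [← IntermediateField.adjoin.finrank hQ, hadj, hfin]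
  · intro z hz
    rw [hmin] at hz
    have hr := NumberField.Embeddings.range_eval_eq_rootSet_minpoly K ℂ y
    have hmem : z ∈ (minpoly ℚ y).rootSet ℂ := by
      rw [Polynomial.mem_rootSet]
      exact ⟨minpoly.ne_zero (hyint.tower_top), hz⟩
    rw [← hr] at hmem
    obtain ⟨σ, hσ⟩ := hmem
    rw [← hσ]
    exact hbdd 0 σ

end Pool.Agent.LRG.H41
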