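import Pool.Agent.LRG.StmtsA
import Pool.Agent.LRG.StmtsZ
import Pool.Agent.Helper89_LUB.EVH
import Pool.Agent.Helper65_Leo.Local

/-!
LRG, row FAL: if Leopoldt's conjecture fails, the universal Gram determinant vanishes.
-/

set_option autoImplicit false

open Polynomial NumberField
open Pool.Agent.Helper85_Leo (LeopoldtAt HasLog unitVal)
open Pool.Agent.LUB (LogMod emb)

namespace Pool.Agent.LRG.H41

theorem fal_emb_inj (p : ℕ) [Fact p.Prime] : Function.Injective (emb p) := by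
  intro x y h
  have h1 : ((x : ℤ_[p]) : ℚ_[p]) = ((y : ℤ_[p]) : ℚ_[p]) :=
    (algebraMap ℚ_[p] ℂ_[p]).injective h
  exact Subtype.ext h1

theorem fal_chi (hmch : A.MchStmt) (p : ℕ) [hp : Fact p.Prime] (n r : ℕ) (K : Type) [Field K]
    [NumberField K] (u : Fin r → (𝓞 K)ˣ) (hn : Module.finrank ℚ K = n)
    (hgen : ∀ i, IntermediateField.adjoin ℚ {((u i : 𝓞 K) : K)} = ⊤) (i : Fin r) :
    chiI (cst K u) (fun s => ((pt n K u s : ℤ) : ℤ_[p])) i
      = (minpoly ℤ (u i : 𝓞 K)).map (Int.castRingHom ℤ_[p]) := by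
  have h := congrArg (Polynomial.map (Int.castRingHom ℤ_[p])) (hmch n K (u i) hn (hgen i)).1
  rw [h]
  unfold chiI chi
  rw [Polynomial.map_add, Polynomial.map_add, Polynomial.map_pow, Polynomial.map_X,
    Polynomial.map_sum, Polynomial.map_C]
  congr 2
  refine Finset.sum_congr rfl fun j _ => ?_
  rw [Polynomial.map_mul, Polynomial.map_pow, Polynomial.map_X, Polynomial.map_C]
  rfl

theorem fal (hgen : GenStmt) (hmch : A.MchStmt) (_hspl : A.SplStmt) (htrc : A.TrcStmt)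
    (hcrg : A.CrgStmt) (hflg : A.FlgStmt) : FalConcl := by
  intro p hp n r z₀ e M F hM hU K _ _ u x hn hr hr0 hprim hind hcst hpt hpx hL
  obtain ⟨φ, hφ⟩ := Pool.Agent.LUB.H89.evh p (Ix n r) (fun s => (x s : ℤ_[p]))
    (fun s => (PadicInt.norm_int_lt_one_iff_dvd (x s)).2 (hpx s))
  refine ⟨φ, hφ, ?_⟩
  obtain ⟨w, b, l, h1, h2, h3, h4⟩ := hU ℤ_[p] φ (fun s => ((pt n K u s : ℤ) : ℤ_[p]))
    (by intro s; rw [hφ, hpt]; push_cast; rfl)
  rw [h4]
  by_contra hne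
  apply hL
  have hgen' : ∀ i, IntermediateField.adjoin ℚ {((u i : 𝓞 K) : K)} = ⊤ := hgen K r u hprim hind
  subst hcst
  have hchi := fal_chi hmch p n r K u hn hgen'
  refine Pool.Agent.Helper65_Leo.leopoldtAt_of_independent_logs p u M
    (fun σ : K →+* ℂ_[p] => σ)
    (fun σ i => eval₂ (emb p) (σ ((u i : 𝓞 K) : K)) (l i)) ?_ ?_
    (by rw [Fintype.card_fin]; exact hr.le)
  · intro σ i
    have e1 := h1 i
    have e2 := h2 i
    rw [hchi i] at e1 e2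
    exact hflg p K (u i) M (w i) (b i) (l i) e1 e2 σ
  · intro c hc
    by_contra hc0
    apply hne
    refine hcrg n r ℤ_[p] ℂ_[p] (emb p) (fal_emb_inj p) (K →+* ℂ_[p]) _ l
      (fun i σ => σ ((u i : 𝓞 K) : K)) ?_ h3 c hc0 hc
    intro i i' a b
    rw [map_intCast]
    have e1 : pt n K u (Sum.inr (i, i', a, b)) = Algebra.trace ℤ (𝓞 K)
        ((u i : 𝓞 K) ^ (a : ℕ) * (u i' : 𝓞 K) ^ (b : ℕ)) := rfl
    rw [e1, htrc K _ ℂ_[p]]
    refine Finset.sum_congr rfl fun σ _ => ?_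
    have e2 : (((u i : 𝓞 K) ^ (a : ℕ) * (u i' : 𝓞 K) ^ (b : ℕ) : 𝓞 K) : K)
        = ((u i : 𝓞 K) : K) ^ (a : ℕ) * ((u i' : 𝓞 K) : K) ^ (b : ℕ) := rfl
    rw [e2, map_mul, map_pow, map_pow]

end Pool.Agent.LRG.H41
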