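import Pool.Agent.LRG.StmtsA

/-!
LRG, row MAP: `LogMod`, `chiI` and `gram` commute with homomorphisms.
-/

set_option autoImplicit false

open Polynomial NumberField
open Pool.Agent.LUB (LogMod emb)

namespace Pool.Agent.LRG.H41

theorem map : A.MapStmt := by
  intro p _ S S' _ _ _ _ φ
  refine ⟨?_, ?_⟩
  · intro F w l h N
    obtain ⟨a, b, hab⟩ := h N
    refine ⟨a.map φ.toRingHom, b.map φ.toRingHom, ?_⟩
    rw [hab, Polynomial.map_add, Polynomial.map_add, Polynomial.map_mul, Polynomial.map_mul,
      Polynomial.map_sum, Polynomial.map_C]
    congr 2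
    · refine Finset.sum_congr rfl fun k _ => ?_
      rw [Polynomial.map_mul, Polynomial.map_pow, Polynomial.map_C]
      congr 2
      exact φ.commutes _
    · congr 2
      simp
  · intro n r y e
    refine ⟨fun i => ?_, fun l => ?_⟩
    · unfold chiI chi
      rw [Polynomial.map_add, Polynomial.map_add, Polynomial.map_pow, Polynomial.map_X,
        Polynomial.map_sum, Polynomial.map_C]
      congr 2
      · refine Finset.sum_congr rfl fun j _ => ?_
        rw [Polynomial.map_mul, Polynomial.map_pow, Polynomial.map_X, Polynomial.map_C]
        rfl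
      · simp
    · have h1 : φ ((gram y l).det) = ((gram y l).map φ.toRingHom).det :=
        RingHom.map_det φ.toRingHom (gram y l)
      rw [h1]
      congr 1
      ext i i'
      simp only [gram, Matrix.map_apply, Matrix.of_apply, Polynomial.coeff_map, map_sum, map_mul]
      rfl

end Pool.Agent.LRG.H41
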