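import Pool.Agent.LRG.StmtsH

/-!
LRG, row HSX: the arcs of a chart.
-/

set_option autoImplicit false

open Polynomial

namespace Pool.Agent.LRG.H41

theorem hsx (hdir : H.DirStmt) (harc : H.ArcStmt) (htri : H.TriStmt) (hfwc : H.FwcStmt)
    (hbdv : H.BdvStmt) : H.HsxStmt := by
  classical
  intro m k E
  choose D hD using (fun δ => hbdv m k E δ)
  refine ⟨D, fun p _ T G hch => ?_⟩
  obtain ⟨d, hd⟩ := hdir p m
  have harc' := fun x : {x // x ∈ T} => harc p m k G x.1 d (fun j => (hch.2 j x.1 x.2).1)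
    (fun j => (hch.2 j x.1 x.2).2.1)
  choose e ξ h1 h2 h3 h4 using harc'
  have hind : ∀ a : {x // x ∈ T}, AlgebraicIndependent ℤ (wv (ξ a)) := by
    intro a
    have e0 := htri p m d hd (wv a.1) (e a)
    have e1 : wv (ξ a) = fun i => PowerSeries.C (((wv a.1 i : ℤ)) : ℤ_[p]) +
      PowerSeries.C ((p : ℤ_[p]) ^ (e a) * d i) * PowerSeries.X := funext (h2 a)
    rw [e1]
    exact e0
  obtain ⟨cls, hcls⟩ := hfwc p m k E G {x // x ∈ T} ξ hch.1 hind h3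
  refine ⟨fun x => if h : x ∈ T then ξ ⟨x, h⟩ else 0,
    fun x => if h : x ∈ T then (cls ⟨x, h⟩).castSucc else 0, ?_, ?_, ?_⟩
  · intro x hx
    simp only [dif_pos hx]
    exact ⟨h1 ⟨x, hx⟩, h4 ⟨x, hx⟩⟩
  · intro x hx y hy hxy q hq
    simp only [dif_pos hx, dif_pos hy] at hxy hq ⊢
    have e1 : cls ⟨x, hx⟩ = cls ⟨y, hy⟩ := Fin.castSucc_injective _ hxy
    exact (hcls _ _ e1 q).mp hq
  · intro δ q hq hq0
    obtain ⟨ρ, hρ, hρd, hρx⟩ := hD δ p G hch.1 q hq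
    refine ⟨ρ, hρ, hρd, fun x hx hne => ?_⟩
    simp only [dif_pos hx]
    by_contra hcon
    exact hne (hρx x (ξ ⟨x, hx⟩) (h1 ⟨x, hx⟩) (h3 ⟨x, hx⟩) (hq0 x hx) hcon)

end Pool.Agent.LRG.H41
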