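import Pool.Agent.LRG.StmtsE

/-!
LRG, row NIZ: an integral element with small conjugates is zero.
-/

set_option autoImplicit false

open Polynomial NumberField

namespace Pool.Agent.LRG.H41

theorem niz : E.NizStmt := by
  intro M _ _ a ha hlt
  have h1 : algebraMap ℚ ℂ (Algebra.norm ℚ a) = ∏ τ : M →+* ℂ, τ a := by
    rw [Algebra.norm_eq_prod_embeddings ℚ ℂ a]
    exact (Fintype.prod_equiv (RingHom.equivRatAlgHom (R := M) (S := ℂ)) (fun τ => τ a)
      (fun σ => σ a) (fun τ => rfl)).symm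
  have h2 : IsIntegral ℤ (Algebra.norm ℚ a) := Algebra.isIntegral_norm ℚ ha
  obtain ⟨z, hz⟩ := IsIntegrallyClosed.isIntegral_iff.mp h2
  rw [← h1, ← hz] at hlt
  have h3 : algebraMap ℚ ℂ (algebraMap ℤ ℚ z) = (z : ℂ) := by simp
  rw [h3, Complex.norm_intCast] at hlt
  have h4 : z = 0 := by
    have h5 : |z| < 1 := by exact_mod_cast hlt
    exact Int.abs_lt_one_iff.mp h5
  rw [h4, map_zero] at hz
  exact Algebra.norm_eq_zero_iff.mp hz.symm

end Pool.Agent.LRG.H41
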