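import Pool.Agent.LRG.StmtsE

/-!
LRG, row TRA: the trace is close to a Gaussian integer.
-/

set_option autoImplicit false

open Polynomial NumberField

namespace Pool.Agent.LRG.H41

theorem tra : E.TraStmt := by
  intro hblc htre hspc r₁ r₂ t x K _ _ θ e hF hbig hr M τ
  obtain ⟨-, htr, -, -⟩ := hblc htre r₁ r₂ t x K θ e hF M
  obtain ⟨-, hom, -⟩ := hspc r₁ r₂
  have hx := hF.rts.near
  set n : ℕ := r₁ + 2 * r₂ with hn
  have hn3 : 3 ≤ n := by omega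
  obtain ⟨ht4, hbig⟩ := hbig
  have ht4' : (4 : ℝ) ≤ t := by exact_mod_cast ht4
  have hb1 : 1 ≤ E.bd r₁ r₂ := by
    unfold E.bd
    have : (1 : ℝ) ≤ 5 ^ (r₁ + r₂) := one_le_pow₀ (by norm_num)
    linarith
  have ht1 : (1 : ℝ) ≤ (t : ℝ) - 1 := by linarith
  have hpow1 : (1 : ℝ) ≤ ((t : ℝ) - 1) ^ (n - 1) := one_le_pow₀ ht1
  have hpow0 : (0 : ℝ) < ((t : ℝ) - 1) ^ (n - 1) := lt_of_lt_of_le one_pos hpow1
  have hε : 1 / ((t : ℝ) - 1) ^ (n - 1) ≤ 1 := by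
    rw [div_le_one hpow0]; exact hpow1
  have hε0 : 0 ≤ 1 / ((t : ℝ) - 1) ^ (n - 1) := by positivity
  have hcard : ((E.blk e M τ).card : ℝ) ≤ (n : ℝ) := by
    have h1 : (E.blk e M τ).card ≤ Fintype.card (E.Ro r₁ r₂) := Finset.card_le_univ _
    have h2 : Fintype.card (E.Ro r₁ r₂) = n := by
      simp only [Fintype.card_sum, Fintype.card_prod, Fintype.card_fin, Fintype.card_bool]
      omega
    rw [h2] at h1
    exact_mod_cast h1
  have hz : ((E.zre t e M τ : ℂ) + (E.zim t e M τ : ℂ) * Complex.I)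
      = ∑ o ∈ E.blk e M τ, (t : ℂ) * E.om o := by
    unfold E.zre E.zim E.om
    push_cast
    rw [Finset.sum_mul, ← Finset.sum_add_distrib]
    refine Finset.sum_congr rfl fun o _ => ?_
    ring
  have hsum : ∀ (f : E.Ro r₁ r₂ → ℂ) (B : ℝ), 0 ≤ B → (∀ o, ‖f o‖ ≤ B) →
      ‖∑ o ∈ E.blk e M τ, f o‖ ≤ n * B := by
    intro f B hB hf
    refine (norm_sum_le _ _).trans ?_
    refine (Finset.sum_le_card_nsmul _ _ B (fun o _ => hf o)).trans ?_
    rw [nsmul_eq_mul]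
    exact mul_le_mul_of_nonneg_right hcard hB
  have hto : ∀ o : E.Ro r₁ r₂, ‖(t : ℂ) * E.om o‖ ≤ E.bd r₁ r₂ * t := by
    intro o
    rw [norm_mul, Complex.norm_natCast, mul_comm]
    exact mul_le_mul_of_nonneg_right (hom o).2 (Nat.cast_nonneg _)
  have hbt : 1 ≤ E.bd r₁ r₂ * t := by nlinarith
  refine ⟨?_, ?_, ?_, ?_⟩
  · rw [htr, hz, ← Finset.sum_sub_distrib]
    refine (hsum _ _ hε0 (fun o => hx o)).trans (le_of_eq ?_)
    rw [mul_one_div]
  · rw [div_lt_iff₀ hpow0]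
    have h1 : (2 : ℝ) ≤ (8 * (n : ℝ) * E.bd r₁ r₂ * t) ^ (n - 2) := by
      have hn1 : (1 : ℝ) ≤ n := by
        have : 1 ≤ n := by omega
        exact_mod_cast this
      have h2 : (2 : ℝ) ≤ 8 * (n : ℝ) * E.bd r₁ r₂ * t := by
        have h3 : 8 * (n : ℝ) * E.bd r₁ r₂ * t = 8 * ((n : ℝ) * (E.bd r₁ r₂ * t)) := by ring
        rw [h3]
        nlinarith [mul_le_mul hn1 hbt (by norm_num) (by linarith)]
      calc (2 : ℝ) ≤ 8 * (n : ℝ) * E.bd r₁ r₂ * t := h2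
        _ = (8 * (n : ℝ) * E.bd r₁ r₂ * t) ^ 1 := (pow_one _).symm
        _ ≤ _ := pow_le_pow_right₀ (by linarith) (by omega)
    have hn0 : (0 : ℝ) ≤ n := Nat.cast_nonneg _
    nlinarith [mul_le_mul_of_nonneg_left h1 hn0]
  · rw [htr]
    have h1 : ∀ o, ‖x o‖ ≤ 2 * (E.bd r₁ r₂ * t) := by
      intro o
      have h2 : x o = (x o - t * E.om o) + t * E.om o := by ring
      rw [h2]
      refine (norm_add_le _ _).trans ?_
      have h3 := hx o
      have h4 := hto o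
      linarith
    refine (hsum _ _ (by linarith) h1).trans (le_of_eq ?_)
    ring
  · rw [hz]
    refine (hsum _ _ (by linarith) hto).trans (le_of_eq ?_)
    ring

end Pool.Agent.LRG.H41
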